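import Pool.Agent.H6.FB.Stmts

/-!
# Project FB, module BDB: bounds of `aa - 1` and `bb - 1`
-/

set_option autoImplicit false

open Metric Set Filter Topology

namespace Pool.Agent.H6.FB

theorem bdb_lip (f : ℂ → ℂ) {r : ℝ} (hr : 1 / 2 < r) (hf : DifferentiableOn ℂ f (ball 0 r)) :
    ∃ C : ℝ, 0 ≤ C ∧ ∀ s : ℂ, ‖s‖ ≤ 1 / 2 → ‖f s - f 0‖ ≤ C * ‖s‖ := by
  have hsub : closedBall (0 : ℂ) (1 / 2) ⊆ ball (0 : ℂ) r := closedBall_subset_ball hr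
  have hc : ContinuousOn (deriv f) (closedBall (0 : ℂ) (1 / 2)) :=
    ((hf.deriv isOpen_ball).continuousOn).mono hsub
  obtain ⟨C, hC⟩ := (isCompact_closedBall (0 : ℂ) (1 / 2)).exists_bound_of_continuousOn hc
  have h0 : (0 : ℂ) ∈ closedBall (0 : ℂ) (1 / 2) := by
    rw [mem_closedBall_zero_iff, norm_zero]
    norm_num
  refine ⟨C, (norm_nonneg _).trans (hC 0 h0), fun s hs => ?_⟩
  have h1 : s ∈ closedBall (0 : ℂ) (1 / 2) := by
    rw [mem_closedBall_zero_iff]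
    exact hs
  have h2 := (convex_closedBall (0 : ℂ) (1 / 2)).norm_image_sub_le_of_norm_deriv_le
    (fun x hx => (hf x (hsub hx)).differentiableAt (isOpen_ball.mem_nhds (hsub hx))) hC h0 h1
  rwa [sub_zero] at h2

theorem bdb_thm (h1 : TTAStmt) (h2 : TTBStmt) (h3 : BBBStmt) (h4 : BDAStmt) : BDBStmt := by
  obtain ⟨-, -, -, -, -, -, -, -, -, hr⟩ := h1
  obtain ⟨hd, h0, -⟩ := h2
  obtain ⟨hbd, hb0, -⟩ := h3
  obtain ⟨C, hC, hCb⟩ := bdb_lip tt hr hd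
  obtain ⟨C', -, hCb'⟩ := bdb_lip bb hr hbd
  refine ⟨max (C ^ 3 * Real.exp (C + C ^ 2 / 2)) C', fun s hs => ⟨?_, ?_⟩⟩
  · have e1 : ‖tt s‖ ≤ C * ‖s‖ := by
      have := hCb s hs
      rwa [h0, sub_zero] at this
    have e2 : ‖tt s‖ ≤ C := by
      refine e1.trans ?_
      have : C * ‖s‖ ≤ C * 1 := mul_le_mul_of_nonneg_left (by linarith) hC
      linarith
    have e3 : ‖tt s‖ + ‖tt s‖ ^ 2 / 2 ≤ C + C ^ 2 / 2 := by
      have := pow_le_pow_left₀ (norm_nonneg (tt s)) e2 2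
      linarith
    have e4 : ‖tt s‖ ^ 3 ≤ C ^ 3 * ‖s‖ ^ 3 := by
      have := pow_le_pow_left₀ (norm_nonneg (tt s)) e1 3
      rwa [mul_pow] at this
    calc ‖aa s - 1‖ ≤ ‖tt s‖ ^ 3 * Real.exp (‖tt s‖ + ‖tt s‖ ^ 2 / 2) := h4 (tt s)
      _ ≤ (C ^ 3 * ‖s‖ ^ 3) * Real.exp (C + C ^ 2 / 2) :=
        mul_le_mul e4 (Real.exp_le_exp.2 e3) (Real.exp_pos _).le (by positivity)
      _ = C ^ 3 * Real.exp (C + C ^ 2 / 2) * ‖s‖ ^ 3 := by ring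
      _ ≤ max (C ^ 3 * Real.exp (C + C ^ 2 / 2)) C' * ‖s‖ ^ 3 :=
        mul_le_mul_of_nonneg_right (le_max_left _ _) (by positivity)
  · have e1 := hCb' s hs
    rw [hb0] at e1
    exact e1.trans (mul_le_mul_of_nonneg_right (le_max_right _ _) (norm_nonneg _))

end Pool.Agent.H6.FB
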