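import Pool.Agent.H6.FB.Stmts

/-!
# Project FB, module OSG: Osgood's theorem
-/

set_option autoImplicit false

open Metric Set Filter Topology

namespace Pool.Agent.H6.FB

theorem osg_one (h1 : OSAStmt) (E F : Type) [NormedAddCommGroup E] [NormedSpace ℂ E]
    [FiniteDimensional ℂ E] [NormedAddCommGroup F] [NormedSpace ℂ F] [FiniteDimensional ℂ F]
    (hE : Module.finrank ℂ E = 1) (hF : Module.finrank ℂ F = 1) (f : E → F) (U : Set E)
    (hU : IsOpen U) (hf : DifferentiableOn ℂ f U) (hi : InjOn f U) (p : E) (hp : p ∈ U) :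
    fderiv ℂ f p ≠ 0 := by
  have a : E ≃L[ℂ] ℂ := ContinuousLinearEquiv.ofFinrankEq (by rw [hE, Module.finrank_self])
  have b : F ≃L[ℂ] ℂ := ContinuousLinearEquiv.ofFinrankEq (by rw [hF, Module.finrank_self])
  have hV : IsOpen ((a.symm : ℂ → E) ⁻¹' U) := hU.preimage a.symm.continuous
  have e1 : DifferentiableOn ℂ (fun z : ℂ => b (f (a.symm z))) ((a.symm : ℂ → E) ⁻¹' U) :=
    b.differentiable.comp_differentiableOn (hf.comp a.symm.differentiable.differentiableOn
      (fun z hz => hz))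
  have e2 : InjOn (fun z : ℂ => b (f (a.symm z))) ((a.symm : ℂ → E) ⁻¹' U) := by
    intro z hz w hw hzw
    exact a.symm.injective (hi hz hw (b.injective hzw))
  have e3 : a p ∈ (a.symm : ℂ → E) ⁻¹' U := by
    rw [mem_preimage, a.symm_apply_apply]
    exact hp
  have e4 := h1 _ _ hV e1 e2 (a p) e3
  intro h0
  apply e4
  have e5 : HasFDerivAt f (0 : E →L[ℂ] F) (a.symm (a p)) := by
    rw [a.symm_apply_apply, ← h0]
    exact ((hf p hp).differentiableAt (hU.mem_nhds hp)).hasFDerivAt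
  have e6 : HasFDerivAt (fun z : ℂ => f (a.symm z)) ((0 : E →L[ℂ] F).comp
      (a.symm : ℂ →L[ℂ] E)) (a p) := HasFDerivAt.comp (a p) e5 a.symm.hasFDerivAt
  have e7 : HasFDerivAt (fun z : ℂ => b (f (a.symm z))) ((b : F →L[ℂ] ℂ).comp
      ((0 : E →L[ℂ] F).comp (a.symm : ℂ →L[ℂ] E))) (a p) :=
    HasFDerivAt.comp (a p) b.hasFDerivAt e6
  rw [← fderiv_apply_one_eq_deriv, e7.fderiv]
  simp

theorem osg_thm (h1 : OSAStmt) (h2 : OSBStmt) (h3 : OSCStmt) : OSGStmt := by
  intro n
  induction n with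
  | zero =>
    intro E F _ _ _ _ _ _ hE _ f U _ _ _ p _
    have : Subsingleton E := Module.finrank_zero_iff.1 hE
    exact Function.injective_of_subsingleton _
  | succ n ih =>
    intro E F _ _ _ _ _ _ hE hF f U hU hf hi p hp
    refine h2 n ih E F hE hF f U hU hf hi p hp ?_
    rcases Nat.eq_zero_or_pos n with hn | hn
    · subst hn
      exact osg_one h1 E F (by rw [hE]) (by rw [hF]) f U hU hf hi p hp
    · exact h3 E F (by omega) (by rw [hE, hF]) f U hU hf hi
        (fun q hq h => h2 n ih E F hE hF f U hU hf hi q hq h) p hp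

end Pool.Agent.H6.FB
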