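import Pool.Agent.H6.FB.Stmts

/-!
# Project FB, module SQA: the bound of `|aa|^2`
-/

set_option autoImplicit false

open Metric Set Filter Topology

namespace Pool.Agent.H6.FB

noncomputable def sqa_g (x : ℝ) : ℝ := (1 - x) * Real.exp (x + x ^ 2 / 2)

theorem sqa_deriv (x : ℝ) :
    HasDerivAt sqa_g (-(x ^ 2) * Real.exp (x + x ^ 2 / 2)) x := by
  have h1 : HasDerivAt (fun x : ℝ => x + x ^ 2 / 2) (1 + x) x := by
    have := (hasDerivAt_id x).add (((hasDerivAt_id x).pow 2).div_const 2)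
    refine this.congr_deriv ?_
    simp
  have h2 : HasDerivAt (fun x : ℝ => 1 - x) (-1) x := by
    simpa using (hasDerivAt_id x).const_sub 1
  have h3 := h2.mul h1.exp
  refine h3.congr_deriv ?_
  ring

theorem sqa_anti : Antitone sqa_g := by
  refine antitone_of_deriv_nonpos (fun x => (sqa_deriv x).differentiableAt) fun x => ?_
  rw [(sqa_deriv x).deriv]
  have : 0 ≤ x ^ 2 * Real.exp (x + x ^ 2 / 2) := by positivity
  linarith

theorem sqa_exp_big : Real.exp (31 / 10) ≤ 23 := by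
  have h1 : Real.exp (31 / 10) = Real.exp 1 ^ 3 * Real.exp (1 / 10) := by
    rw [← Real.exp_nat_mul, ← Real.exp_add]
    norm_num
  have h2 : Real.exp 1 ^ 3 ≤ 2.7182818286 ^ 3 :=
    pow_le_pow_left₀ (Real.exp_pos _).le Real.exp_one_lt_d9.le 3
  have h3 : Real.exp (1 / 10) ≤ 10 / 9 := by
    have h4 := Real.add_one_le_exp (-(1 / 10 : ℝ))
    rw [Real.exp_neg] at h4
    have h5 : (9 / 10 : ℝ) ≤ (Real.exp (1 / 10))⁻¹ := by linarith
    have h6 := inv_anti₀ (by norm_num) h5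
    rw [inv_inv] at h6
    exact h6.trans (by norm_num)
  rw [h1]
  calc Real.exp 1 ^ 3 * Real.exp (1 / 10) ≤ 2.7182818286 ^ 3 * (10 / 9) :=
        mul_le_mul h2 h3 (Real.exp_pos _).le (by norm_num)
    _ ≤ 23 := by norm_num

theorem sqa_exp_small : Real.exp (1 / 4096) ≤ 1 + 1 / 4000 := by
  have h4 := Real.add_one_le_exp (-(1 / 4096 : ℝ))
  rw [Real.exp_neg] at h4
  have h5 : (4095 / 4096 : ℝ) ≤ (Real.exp (1 / 4096))⁻¹ := by linarith
  have h6 := inv_anti₀ (by norm_num) h5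
  rw [inv_inv] at h6
  exact h6.trans (by norm_num)

theorem sqa_sq (x : ℝ) : sqa_g x ^ 2 = (1 - x) ^ 2 * Real.exp (2 * x + x ^ 2) := by
  unfold sqa_g
  rw [mul_pow, ← Real.exp_nat_mul]
  congr 2
  push_cast
  ring

/-- bound of the real part -/
theorem sqa_g_sq {x : ℝ} (h1 : -(1 / 64) < x) (h2 : x < 65 / 64) : sqa_g x ^ 2 ≤ 1 + 1 / 4000 := by
  have h3 : sqa_g x ≤ sqa_g (-(1 / 64)) := sqa_anti h1.le
  have h4 : sqa_g (65 / 64) ≤ sqa_g x := sqa_anti h2.le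
  have h5 : sqa_g (-(1 / 64)) ≤ Real.exp (1 / 8192) := by
    unfold sqa_g
    have h6 : (1 - -(1 / 64 : ℝ)) ≤ Real.exp (1 / 64) := by
      have := Real.add_one_le_exp (1 / 64 : ℝ)
      linarith
    calc (1 - -(1 / 64 : ℝ)) * Real.exp (-(1 / 64) + (-(1 / 64)) ^ 2 / 2) ≤
        Real.exp (1 / 64) * Real.exp (-(1 / 64) + (-(1 / 64)) ^ 2 / 2) :=
          mul_le_mul_of_nonneg_right h6 (Real.exp_pos _).le
      _ = Real.exp (1 / 8192) := by
        rw [← Real.exp_add]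
        norm_num
  have h7 : -1 ≤ sqa_g (65 / 64) := by
    unfold sqa_g
    have h8 : Real.exp (65 / 64 + (65 / 64) ^ 2 / 2) ≤ 23 :=
      (Real.exp_le_exp.2 (by norm_num)).trans sqa_exp_big
    nlinarith
  have h9 : |sqa_g x| ≤ Real.exp (1 / 8192) := by
    have h10 : (1 : ℝ) ≤ Real.exp (1 / 8192) := by
      have := Real.add_one_le_exp (1 / 8192 : ℝ)
      linarith
    rw [abs_le]
    constructor <;> linarith
  rw [← sq_abs]
  calc |sqa_g x| ^ 2 ≤ Real.exp (1 / 8192) ^ 2 := pow_le_pow_left₀ (abs_nonneg _) h9 2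
    _ = Real.exp (1 / 4096) := by
      rw [← Real.exp_nat_mul]
      norm_num
    _ ≤ 1 + 1 / 4000 := sqa_exp_small

theorem sqa_norm_AA (t : ℂ) :
    ‖AA t‖ ^ 2 = ((1 - t.re) ^ 2 + t.im ^ 2) * Real.exp (2 * t.re + t.re ^ 2 - t.im ^ 2) := by
  unfold AA
  rw [norm_mul, mul_pow, Complex.norm_exp, ← Complex.normSq_eq_norm_sq, Complex.normSq_apply,
    ← Real.exp_nat_mul]
  have h1 : (t + t ^ 2 / 2).re = t.re + (t.re ^ 2 - t.im ^ 2) / 2 := by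
    have h2 : t ^ 2 / 2 = ((1 / 2 : ℝ) : ℂ) * t ^ 2 := by
      push_cast
      ring
    rw [h2, Complex.add_re, Complex.re_ofReal_mul, pow_two, Complex.mul_re]
    ring
  rw [h1]
  simp only [Complex.sub_re, Complex.one_re, Complex.sub_im, Complex.one_im]
  congr 1
  · ring
  · congr 1
    push_cast
    ring

theorem sqa_big {t : ℂ} (h1 : -(1 / 64) < t.re) (h2 : t.re < 65 / 64) (h3 : |t.im| < 1 / 40) :
    ‖AA t‖ ^ 2 ≤ 1 + 1 / 32 := by
  rw [sqa_norm_AA]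
  have h4 : Real.exp (2 * t.re + t.re ^ 2 - t.im ^ 2) ≤ Real.exp (2 * t.re + t.re ^ 2) :=
    Real.exp_le_exp.2 (by nlinarith [sq_nonneg t.im])
  have h5 : Real.exp (2 * t.re + t.re ^ 2) ≤ 23 := by
    refine (Real.exp_le_exp.2 ?_).trans sqa_exp_big
    nlinarith
  have h6 : t.im ^ 2 ≤ 1 / 1600 := by
    rw [← sq_abs]
    nlinarith [abs_nonneg t.im]
  have h7 := sqa_g_sq h1 h2
  rw [sqa_sq] at h7
  have h8 : 0 < Real.exp (2 * t.re + t.re ^ 2) := Real.exp_pos _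
  calc ((1 - t.re) ^ 2 + t.im ^ 2) * Real.exp (2 * t.re + t.re ^ 2 - t.im ^ 2) ≤
      ((1 - t.re) ^ 2 + t.im ^ 2) * Real.exp (2 * t.re + t.re ^ 2) :=
        mul_le_mul_of_nonneg_left h4 (by positivity)
    _ = (1 - t.re) ^ 2 * Real.exp (2 * t.re + t.re ^ 2) +
        t.im ^ 2 * Real.exp (2 * t.re + t.re ^ 2) := by ring
    _ ≤ (1 + 1 / 4000) + 1 / 1600 * 23 :=
        add_le_add h7 (mul_le_mul h6 h5 h8.le (by norm_num))
    _ ≤ 1 + 1 / 32 := by norm_num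

theorem sqa_small (h4 : BDAStmt) {t : ℂ} {x : ℝ} (hx0 : 0 ≤ x) (hx : x ≤ 1 / 2)
    (ht : ‖t‖ ≤ x / 16) : ‖AA t‖ ^ 2 ≤ 1 + x ^ 2 / 2 := by
  have h0 := norm_nonneg t
  have h1 := h4 t
  have h2 : ‖AA t‖ ≤ 1 + ‖AA t - 1‖ := by
    have := norm_add_le (1 : ℂ) (AA t - 1)
    rw [add_sub_cancel, norm_one] at this
    exact this
  have h3 : Real.exp (‖t‖ + ‖t‖ ^ 2 / 2) ≤ 23 := by
    refine (Real.exp_le_exp.2 ?_).trans sqa_exp_big
    nlinarith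
  have h5 : ‖t‖ ^ 3 ≤ (x / 16) ^ 3 := pow_le_pow_left₀ h0 ht 3
  have h6 : ‖t‖ ^ 3 * Real.exp (‖t‖ + ‖t‖ ^ 2 / 2) ≤ (x / 16) ^ 3 * 23 :=
    mul_le_mul h5 h3 (Real.exp_pos _).le (by positivity)
  have h7 : (x / 16) ^ 3 * 23 ≤ x ^ 2 / 100 := by
    have h8 : (x / 16) ^ 3 * 23 = x ^ 2 * (x * (23 / 4096)) := by ring
    have h9 : x ^ 2 * (x * (23 / 4096)) ≤ x ^ 2 * (1 / 100) :=
      mul_le_mul_of_nonneg_left (by linarith) (sq_nonneg x)
    rw [h8]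
    linarith
  have h8 : ‖AA t‖ ≤ 1 + x ^ 2 / 100 := by linarith
  have h9 : x ^ 2 ≤ 1 / 4 := by nlinarith
  have h10 := pow_le_pow_left₀ (norm_nonneg (AA t)) h8 2
  nlinarith [sq_nonneg x]

theorem sqa_thm (h1 : TTAStmt) (h2 : TTBStmt) (h4 : BDAStmt) : SQAStmt := by
  obtain ⟨-, -, -, -, -, hc1, hc2, -, -, hr⟩ := h1
  obtain ⟨-, -, -, -, hb, -, hs⟩ := h2
  intro s hs2
  have hD : s ∈ DD := by
    unfold DD
    rw [mem_ball_zero_iff]
    linarith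
  rcases le_or_gt ‖(cc : ℂ) * s‖ (1 / 2) with h | h
  · exact sqa_small h4 (norm_nonneg s) hs2 (hs s h)
  · have e1 : ‖(cc : ℂ) * s‖ = cc * ‖s‖ := by
      rw [norm_mul, Complex.norm_real, Real.norm_eq_abs, abs_of_pos (by linarith)]
    rw [e1] at h
    have e2 : 1 / 4 ≤ ‖s‖ := by nlinarith [norm_nonneg s]
    obtain ⟨b1, b2, b3⟩ := hb s hD
    have e3 : ‖aa s‖ ^ 2 ≤ 1 + 1 / 32 := sqa_big b1 b2 b3
    nlinarith

end Pool.Agent.H6.FB
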